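import Pool.Agent.Y720.WL.Cy2

/-!
# Weak approximation near the rational points of double covers of products of projective lines
with trivial canonical class (helper720)

`K` is a field of characteristic zero, for example a number field, and `X` is the double cover
`w² = f(z₁, …, z_n)`, where `f` has degree `3` or `4` in each variable. For `n = 2` these are the K3
surfaces which are double covers of `ℙ¹ × ℙ¹`, branched along curves of bidegree `(4, 4)`; for
`n ≥ 3` they are Calabi-Yau varieties.

Through a point `P = (z, w)` of `X` there are the `n` curves of genus one `w² = f(z + t e_a)`. The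
difference of the two points over `z` is a point `D_a(P)` of the Jacobian of this curve, which is
the resolvent cubic. We show that there is a divisor `N(z) = 0` such that, for every finite set of
real and `p`-adic places (of degree one, over different `p`, at least one of them `p`-adic), the
closure of `X(K)` in the product of the `X(K_v)` is a neighbourhood of each of its points `T`
outside this divisor for which, for some `a`, `D_a(T_v)` has infinite order at all the `p`-adic
places `v`. In particular, it is a neighbourhood of each rational point `P` outside this divisor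
for which some `D_a(P)` has infinite order.

Idea of the proof. Some multiple of `D_a(T)` is close to the origin at all the places. For the
rational points `P` close to `T`, the same multiple of `D_a(P)` is close to the origin, and it has
infinite order, since a point close to the origin at a `p`-adic place is not a torsion point. So its
multiples fill neighbourhoods of the origin with a size which does not depend on `P`,
simultaneously at all the places (at the real place one needs a multiple which is very close to the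
origin). So the rational points in the direction `a` fill the local curves near `T`, uniformly
in `P`. To move in another direction `j`, one first moves in the direction `a` to a local point
`T'` close to `T` at which `D_j` has infinite order. There are such points, since for every `k` the
points of the curve in the direction `a` at which `D_j` has order `k` are finitely many: at some
branch points of this curve `D_j` has a pole. Then one moves from `T'` in the direction `j`, and
back in the direction `a`.
-/

set_option autoImplicit false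

namespace Pool.Agent.Results.MP_ed3816_nt.BidegreeFourFour

open MvPolynomial Pool.Agent.Y720.MZ

universe u v w

/-- The point `(z, w)` lies on the double cover `w² = f(z)`. -/
def OnCover {F : Type v} [Field F] {n : ℕ} (f : MvPolynomial (Fin n) F) (P : (Fin n → F) × F) :
    Prop :=
  P.2 ^ 2 = eval P.1 f

/-- The image of a point under an embedding of fields. -/
def image {K : Type v} {F : Type w} [Field K] [Field F] (φ : K →+* F) {n : ℕ}
    (P : (Fin n → K) × K) : (Fin n → F) × F :=
  (fun j => φ (P.1 j), φ P.2)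

/-- The polynomial `f(z + t e_a)` in `t`. -/
noncomputable def line {F : Type v} [Field F] {n : ℕ} (f : MvPolynomial (Fin n) F) (z : Fin n → F)
    (a : Fin n) : Polynomial F :=
  aeval (fun i => Polynomial.C (z i) +
    Polynomial.C (Pi.single (M := fun _ => F) a 1 i) * Polynomial.X) f

/-- The resolvent `y² = x³ + q₂ x² + (q₁ q₃ - 4 q₀ q₄) x + (q₁² q₄ + q₀ q₃² - 4 q₀ q₂ q₄)` of the
quartic polynomial with coefficients `q₀ = w², q₁, q₂, q₃, q₄`, the Jacobian of the curve
`w² = q₀ + q₁ t + q₂ t² + q₃ t³ + q₄ t⁴`. -/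
def resolvent {F : Type v} [Field F] (w : F) (q : ℕ → F) : WeierstrassCurve F :=
  ⟨0, q 2, 0, q 1 * q 3 - 4 * w ^ 2 * q 4,
    q 1 ^ 2 * q 4 + w ^ 2 * q 3 ^ 2 - 4 * w ^ 2 * q 2 * q 4⟩

/-- The difference of the points `(z, w)` and `(z, -w)` of the curve `w² = f(z + t e_a)`, the point
`x = q₁² / (4 w²) - q₂`, `y = (q₁ x + 2 w² q₃) / (2 w)` of the Jacobian, has infinite order. -/
def InfiniteOrder {F : Type v} [Field F] {n : ℕ} (f : MvPolynomial (Fin n) F) (a : Fin n)
    (P : (Fin n → F) × F) : Prop :=
  let q : ℕ → F := (line f P.1 a).coeff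
  let x := q 1 ^ 2 / (4 * P.2 ^ 2) - q 2
  let y := (q 1 * x + 2 * P.2 ^ 2 * q 3) / (2 * P.2)
  letI : DecidableEq F := Classical.decEq F
  ∀ h : (resolvent P.2 q).toAffine.Nonsingular x y, ∀ k : ℕ, k ≠ 0 →
    k • (.some x y h : (resolvent P.2 q).toAffine.Point) ≠ 0

/-- The closure of the `K`-points in the product of the `X(ℚ_[p i])` is a neighbourhood of `T`. -/
def Fills {K : Type u} [Field K] {n : ℕ} (f : MvPolynomial (Fin n) K) {ι : Type} {p : ι → ℕ}
    [∀ i, Fact (p i).Prime] (σ : ∀ i, K →+* ℚ_[p i]) (T : ∀ i, (Fin n → ℚ_[p i]) × ℚ_[p i]) :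
    Prop :=
  ∃ U ∈ nhds T, ∀ S ∈ U, (∀ i, OnCover (map (σ i) f) (S i)) →
    S ∈ closure {S | ∃ P, OnCover f P ∧ S = fun i => image (σ i) P}

/-- The closure of the `K`-points in the product of `X(ℝ)` and of the `X(ℚ_[p i])` is a
neighbourhood of `T`. -/
def FillsReal {K : Type u} [Field K] {n : ℕ} (f : MvPolynomial (Fin n) K) {ι : Type} {p : ι → ℕ}
    [∀ i, Fact (p i).Prime] (σ : ∀ i, K →+* ℚ_[p i]) (τ : K →+* ℝ)
    (T : ((Fin n → ℝ) × ℝ) × ∀ i, (Fin n → ℚ_[p i]) × ℚ_[p i]) : Prop :=
  ∃ U ∈ nhds T, ∀ S ∈ U, OnCover (map τ f) S.1 → (∀ i, OnCover (map (σ i) f) (S.2 i)) →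
    S ∈ closure {S | ∃ P, OnCover f P ∧ S = (image τ P, fun i => image (σ i) P)}

section aux

variable {K : Type u} [Field K] [CharZero K] {n : ℕ} {f : MvPolynomial (Fin n) K}

omit [CharZero K] in
lemma dist_image {F : Type} [NormedField F] (φ : K →+* F) (P : (Fin n → K) × K)
    (T : (Fin n → F) × F) {η : ℝ} (hη : 0 < η) : dist T (image φ P) < η ↔
      (∀ j, ‖φ (P.1 j) - T.1 j‖ < η) ∧ ‖φ P.2 - T.2‖ < η := by
  rw [dist_comm, Prod.dist_eq, max_lt_iff, dist_pi_lt_iff hη]
  simp only [dist_eq_norm, image]

lemma io_of {F : Type v} [Field F] [CharZero F] {g : MvPolynomial (Fin n) F} {a : Fin n}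
    {P : (Fin n → F) × F} (hP : OnCover g P) (hT : Tq g (Pi.single a 1) P.1 ≠ 0)
    (h : InfiniteOrder g a P) : IOt (th g (Pi.single a 1) P.1 P.2) := by
  classical
  refine ⟨?_, h⟩
  rw [Tq_eq hP]
  exact hT

end aux

/-- **Weak approximation near the rational points of double covers branched in multidegree
`(4, …, 4)`.** -/
theorem result :
    ∀ (K : Type u) [Field K] [CharZero K] (n : ℕ), 2 ≤ n → ∀ f : MvPolynomial (Fin n) K,
      -- in each direction the generic curve is smooth of genus one
      (∀ j, 3 ≤ f.degreeOf j ∧ f.degreeOf j ≤ 4 ∧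
        ∃ z : Fin n → K, (line f z j).Separable ∧ (line f z j).natDegree = f.degreeOf j) →
      -- the second derivatives `∂ᵢ ∂ⱼ log f` are not zero
      (∀ i j, i ≠ j → f * pderiv i (pderiv j f) ≠ pderiv i f * pderiv j f) →
      -- then there is a divisor
      ∃ N : MvPolynomial (Fin n) K, N ≠ 0 ∧
        -- such that for all finite sets of places
        ∀ (ι : Type) [Finite ι] [Nonempty ι] (p : ι → ℕ) [∀ i, Fact (p i).Prime],
          Function.Injective p → ∀ σ : ∀ i, K →+* ℚ_[p i],
            -- the closure of `X(K)` is a neighbourhood of the rational points outside of this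
            -- divisor for which the difference has infinite order in some direction
            (∀ P : (Fin n → K) × K, OnCover f P → eval P.1 N ≠ 0 →
              (∃ a, InfiniteOrder f a P) → Fills f σ (fun i => image (σ i) P) ∧
                ∀ τ : K →+* ℝ, FillsReal f σ τ (image τ P, fun i => image (σ i) P)) ∧
            -- and of the local points in the closure with this property at the `p`-adic places
            (∀ T : ∀ i, (Fin n → ℚ_[p i]) × ℚ_[p i],
              T ∈ closure {S | ∃ P, OnCover f P ∧ S = fun i => image (σ i) P} →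
              (∀ i, OnCover (map (σ i) f) (T i) ∧ eval (T i).1 (map (σ i) N) ≠ 0) →
              (∃ a, ∀ i, InfiniteOrder (map (σ i) f) a (T i)) → Fills f σ T) ∧
            ∀ (τ : K →+* ℝ) (T : ((Fin n → ℝ) × ℝ) × ∀ i, (Fin n → ℚ_[p i]) × ℚ_[p i]),
              T ∈ closure {S | ∃ P, OnCover f P ∧ S = (image τ P, fun i => image (σ i) P)} →
              OnCover (map τ f) T.1 → eval T.1.1 (map τ N) ≠ 0 →
              (∀ i, OnCover (map (σ i) f) (T.2 i) ∧ eval (T.2 i).1 (map (σ i) N) ≠ 0) →
              (∃ a, ∀ i, InfiniteOrder (map (σ i) f) a (T.2 i)) → FillsReal f σ τ T := by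
  intro K _ _ n hn f hd hW
  have : Nonempty (Fin n) := ⟨⟨0, by omega⟩⟩
  refine ⟨NK f, NK_ne hd hW, ?_⟩
  have hd4 : ∀ j, f.degreeOf j ≤ 4 := fun j => (hd j).2.1
  intro ι _ _ p _ hinj σ
  have : Fintype ι := Fintype.ofFinite ι
  -- the local statements
  have H1 : ∀ T : ∀ i, (Fin n → ℚ_[p i]) × ℚ_[p i],
      T ∈ closure {S | ∃ P, OnCover f P ∧ S = fun i => image (σ i) P} →
      (∀ i, OnCover (map (σ i) f) (T i) ∧ eval (T i).1 (map (σ i) (NK f)) ≠ 0) →
      (∃ a, ∀ i, InfiniteOrder (map (σ i) f) a (T i)) → Fills f σ T := by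
    rintro T hcl hT ⟨a, ha⟩
    obtain ⟨ε, hε, hint⟩ := cy_p hinj σ hd4 (x₀ := fun i => (T i).1) (y₀ := fun i => (T i).2)
      (fun i => (hT i).1) (fun i => (hT i).2) (a := a) fun i =>
        io_of (hT i).1 ((NK_spec hd4 (σ i) (hT i).2).2.1 a) (ha i)
    obtain ⟨_, ⟨P, hP, rfl⟩, h2⟩ := Metric.mem_closure_iff.1 hcl ε hε
    rw [dist_pi_lt_iff hε] at h2
    refine ⟨Metric.ball T ε, Metric.ball_mem_nhds T hε, fun S hS hSX => ?_⟩
    rw [Metric.mem_ball, dist_pi_lt_iff hε] at hS
    rw [Metric.mem_closure_iff]
    intro η hη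
    obtain ⟨z, w, k1, k2⟩ := hint P.1 P.2 hP (fun i => (dist_image (σ i) P (T i) hε).1 (h2 i))
      (fun i => (S i).1) (fun i => (S i).2) hSX (fun i => by
        have h3 := hS i
        rw [Prod.dist_eq, max_lt_iff, dist_pi_lt_iff hε] at h3
        simp only [dist_eq_norm] at h3
        exact h3) η hη
    refine ⟨_, ⟨(z, w), k1, rfl⟩, ?_⟩
    rw [dist_pi_lt_iff hη]
    exact fun i => (dist_image (σ i) (z, w) (S i) hη).2 (k2 i)
  have H2 : ∀ (τ : K →+* ℝ) (T : ((Fin n → ℝ) × ℝ) × ∀ i, (Fin n → ℚ_[p i]) × ℚ_[p i]),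
      T ∈ closure {S | ∃ P, OnCover f P ∧ S = (image τ P, fun i => image (σ i) P)} →
      OnCover (map τ f) T.1 → eval T.1.1 (map τ (NK f)) ≠ 0 →
      (∀ i, OnCover (map (σ i) f) (T.2 i) ∧ eval (T.2 i).1 (map (σ i) (NK f)) ≠ 0) →
      (∃ a, ∀ i, InfiniteOrder (map (σ i) f) a (T.2 i)) → FillsReal f σ τ T := by
    rintro τ T hcl hTr hTN hT ⟨a, ha⟩
    let x : ∀ v : Option ι, Fin n → Lv p v := fun v =>
      match v with
      | none => T.1.1
      | some i => (T.2 i).1
    let y : ∀ v : Option ι, Lv p v := fun v =>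
      match v with
      | none => T.1.2
      | some i => (T.2 i).2
    obtain ⟨ε, hε, hint⟩ := cy_r hinj σ τ hd4 (x₀ := x) (y₀ := y)
      (by
        rintro (_ | i)
        · exact hTr
        · exact (hT i).1)
      (by
        rintro (_ | i)
        · exact hTN
        · exact (hT i).2) (a := a) fun i =>
        io_of (hT i).1 ((NK_spec hd4 (σ i) (hT i).2).2.1 a) (ha i)
    obtain ⟨_, ⟨P, hP, rfl⟩, h2⟩ := Metric.mem_closure_iff.1 hcl ε hε
    rw [Prod.dist_eq, max_lt_iff, dist_pi_lt_iff hε] at h2
    refine ⟨Metric.ball T ε, Metric.ball_mem_nhds T hε, fun S hS hSr hSX => ?_⟩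
    rw [Metric.mem_ball, Prod.dist_eq, max_lt_iff, dist_pi_lt_iff hε] at hS
    rw [Metric.mem_closure_iff]
    intro η hη
    let x' : ∀ v : Option ι, Fin n → Lv p v := fun v =>
      match v with
      | none => S.1.1
      | some i => (S.2 i).1
    let y' : ∀ v : Option ι, Lv p v := fun v =>
      match v with
      | none => S.1.2
      | some i => (S.2 i).2
    obtain ⟨z, w, k1, k2⟩ := hint P.1 P.2 hP
      (by
        rintro (_ | i)
        · exact (dist_image τ P T.1 hε).1 h2.1
        · exact (dist_image (σ i) P (T.2 i) hε).1 (h2.2 i))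
      x' y'
      (by
        rintro (_ | i)
        · exact hSr
        · exact hSX i)
      (by
        rintro (_ | i)
        · have h3 := hS.1
          rw [Prod.dist_eq, max_lt_iff, dist_pi_lt_iff hε] at h3
          simp only [dist_eq_norm] at h3
          exact h3
        · have h3 := hS.2 i
          rw [Prod.dist_eq, max_lt_iff, dist_pi_lt_iff hε] at h3
          simp only [dist_eq_norm] at h3
          exact h3) η hη
    refine ⟨_, ⟨(z, w), k1, rfl⟩, ?_⟩
    rw [Prod.dist_eq, max_lt_iff, dist_pi_lt_iff hη]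
    exact ⟨(dist_image τ (z, w) S.1 hη).2 (k2 none),
      fun i => (dist_image (σ i) (z, w) (S.2 i) hη).2 (k2 (some i))⟩
  refine ⟨?_, H1, H2⟩
  rintro P hP hN ⟨a, ha⟩
  have e1 : ∀ {F : Type} [Field F] [CharZero F] (φ : K →+* F),
      OnCover (map φ f) (image φ P) ∧ eval (image φ P).1 (map φ (NK f)) ≠ 0 ∧
        InfiniteOrder (map φ f) a (image φ P) := by
    intro F _ _ φ
    have k1 : ∀ g : MvPolynomial (Fin n) K, eval (image φ P).1 (map φ g) = φ (eval P.1 g) := by
      intro g
      rw [eval_map, image]
      exact (eval₂_comp_left φ (RingHom.id K) P.1 g).symm ▸ rfl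
    refine ⟨?_, ?_, ?_⟩
    · unfold OnCover
      rw [k1, ← (show P.2 ^ 2 = _ from hP), map_pow]
      rfl
    · rw [k1]
      exact (map_ne_zero φ).2 hN
    · have k2 : eval P.1 (map (RingHom.id K) (NK f)) ≠ 0 := by rwa [map_id]
      have k3 := (NK_spec hd4 (RingHom.id K) k2).2.1 a
      rw [map_id] at k3
      have k4 := io_map φ (io_of hP k3 ha)
      rw [← th_map] at k4
      have k5 : (fun i => φ ((Pi.single a 1 : Fin n → K) i)) = Pi.single a 1 := by
        funext b
        by_cases h : b = a
        · subst h; simp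
        · rw [Pi.single_eq_of_ne h, Pi.single_eq_of_ne h, map_zero]
      rw [k5] at k4
      exact k4.2
  refine ⟨H1 _ (subset_closure ⟨P, hP, rfl⟩) (fun i => ⟨(e1 (σ i)).1, (e1 (σ i)).2.1⟩)
    ⟨a, fun i => (e1 (σ i)).2.2⟩, fun τ => ?_⟩
  exact H2 τ _ (subset_closure ⟨P, hP, rfl⟩) (e1 τ).1 (e1 τ).2.1
    (fun i => ⟨(e1 (σ i)).1, (e1 (σ i)).2.1⟩) ⟨a, fun i => (e1 (σ i)).2.2⟩

end Pool.Agent.Results.MP_ed3816_nt.BidegreeFourFour
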