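import Pool.Agent.Y720.WD.Exi

/-!
# K3 surfaces whose rational points are dense in the product of the p-adic points, for all `p`
in a finite set of primes (helper720)

`X : w² = F(x, y)` is a double cover of `ℙ¹ × ℙ¹` branched along a curve of bidegree `(4, 4)`, so a
K3 surface if the curve is smooth. At the primes `p ≥ 11` in a finite set `S`, we assume that
`F ≡ ν (x - y)³ (x - y + b)` modulo `p`, where `ν` is not a square and `b ≠ 0`, and that `p²` divides
neither a value `F(x, x)` nor the leading coefficient. Then all the fibres of the two elliptic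
fibrations over `ℚ_p` have cuspidal reduction (Kodaira type II), so that their groups of `p`-adic
points are isomorphic to `ℤ_p`, in a family in which the logarithm can be controlled.

If `X` has a rational point whose coordinate `w` is a unit at the primes in `S`, then the rational
points are dense in the product of the sets `X(ℚ_p)`, for `p` in `S`, all of it. These surfaces
exist for all `S`, and they are Zariski dense in the space of all the double covers, with an
arbitrary behaviour modulo any number prime to `S`.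

Idea of the proof. The difference of the points `(x, y, w)` and `(x, y, -w)` in the fibre through a
rational point is a topological generator of the product over `p ∈ S` of the groups `ℤ_p`, because
`w` is a unit. So we can move along fibres through all the local points (simultaneously for all
`p ∈ S`); an explicit form of the group law modulo `p`, uniform in the fibre, permits to follow the
fibres over nearby rational points. The graph whose vertices are the residue classes of `x` and `y`
and whose edges are the pairs for which `F(x, y)` is a nonzero square modulo `p` is connected, and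
also its powers (products over `S`).
-/

set_option autoImplicit false

namespace Pool.Agent.Results.MP_ed3816_nt.DensityAtPrimes

open Pool.Agent.Y720.MZ

instance factPrime (p : Nat.Primes) : Fact (p : ℕ).Prime := ⟨p.2⟩

/-- The value at `(x, y)` of the polynomial `F = ∑ c_ij x^i y^j` (`i, j ≤ 4`). -/
def value (c : Fin 5 → Fin 5 → ℤ) {R : Type*} [CommRing R] (x y : R) : R :=
  ∑ i, ∑ j, (c i j : R) * x ^ (i : ℕ) * y ^ (j : ℕ)

/-- The point `(x, y, w)` lies on the surface `w² = F(x, y)`. -/
def OnSurface (c : Fin 5 → Fin 5 → ℤ) {R : Type*} [CommRing R] (x y w : R) : Prop :=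
  w ^ 2 = value c x y

/-- Modulo `p`, the function `F` is `ν (x - y)³ (x - y + b)`, where `ν` is not a square and `b` is
not zero, and `p²` divides neither a value `F(x, x)` nor the coefficient of `x⁴y⁴`. -/
def CuspidalAt (c : Fin 5 → Fin 5 → ℤ) (p : ℕ) : Prop :=
  ∃ ν b : ℤ, ¬ IsSquare (ν : ZMod p) ∧ ¬ (p : ℤ) ∣ b ∧
    (∀ x y : ℤ, (p : ℤ) ∣ value c x y - ν * (x - y) ^ 3 * (x - y + b)) ∧
    (∀ x : ℤ, ¬ (p : ℤ) ^ 2 ∣ value c x x) ∧ ¬ (p : ℤ) ^ 2 ∣ c 4 4

lemma value_eq (c : Fin 5 → Fin 5 → ℤ) {R : Type*} [CommRing R] (x y : R) :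
    value c x y = F4 c x y := rfl

/-- **K3 surfaces whose rational points are dense in a product of sets of `p`-adic points.** -/
theorem result :
    -- (1) density
    (∀ (c : Fin 5 → Fin 5 → ℤ) (S : Finset Nat.Primes),
      (∀ p ∈ S, 11 ≤ (p : ℕ) ∧ CuspidalAt c p) →
      (∃ x y w : ℚ, OnSurface c x y w ∧ ∀ p ∈ S, ‖(w : ℚ_[p])‖ = 1) →
      ∀ X Y W : ∀ p : Nat.Primes, ℚ_[p], (∀ p ∈ S, OnSurface c (X p) (Y p) (W p)) →
        ∀ ε : ℝ, 0 < ε → ∃ x y w : ℚ, OnSurface c x y w ∧
          ∀ p ∈ S, ‖(x : ℚ_[p]) - X p‖ < ε ∧ ‖(y : ℚ_[p]) - Y p‖ < ε ∧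
            ‖(w : ℚ_[p]) - W p‖ < ε) ∧
    -- (2) existence: for all `S`, in all classes modulo integers `m` prime to `S` which contain
    -- a surface with a point `(1, 0, r)` modulo `m`, the surfaces which satisfy the conditions
    -- of (1), with the rational point `(1, 0, w)`, are Zariski dense
    (∀ (S : Finset Nat.Primes) (m : ℕ) (c' : Fin 5 → Fin 5 → ℤ) (r : ℤ)
      (P : MvPolynomial (Fin 5 × Fin 5) ℂ), 0 < m → (∀ p ∈ S, 11 ≤ (p : ℕ) ∧ Nat.Coprime m p) →
      (m : ℤ) ∣ r ^ 2 - value c' 1 0 → P ≠ 0 →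
      ∃ (c : Fin 5 → Fin 5 → ℤ) (w : ℤ), (∀ i j, (m : ℤ) ∣ c i j - c' i j) ∧
        (∀ p ∈ S, CuspidalAt c p) ∧ OnSurface c 1 0 w ∧ (∀ p ∈ S, ¬ ((p : ℕ) : ℤ) ∣ w) ∧
        MvPolynomial.eval (fun a => (c a.1 a.2 : ℂ)) P ≠ 0) := by
  refine ⟨?_, ?_⟩
  · intro c S hS hP X Y W hX ε hε
    obtain ⟨x₀, y₀, w₀, h0, hw⟩ := hP
    rcases isEmpty_or_nonempty {p // p ∈ S} with hE | hN
    · refine ⟨x₀, y₀, w₀, h0, fun p hp => (hE.false ⟨p, hp⟩).elim⟩
    · have key : ∀ i : {p // p ∈ S}, ∃ (ν b : ℤ) (h : Fin 5 → Fin 5 → ℤ),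
          G4 ((i.1 : Nat.Primes) : ℕ) c h ν b := by
        intro i
        obtain ⟨h11, ν, b, h1, h2, h3, h4, h5⟩ := hS i.1 i.2
        obtain ⟨h, hh⟩ := G4.of_int (p := ((i.1 : Nat.Primes) : ℕ)) h11 h1 h2 h3 h4 h5
        exact ⟨ν, b, h, hh⟩
      choose ν b h H using key
      have hd := dense_all (K := ℚ) (ι := {p // p ∈ S}) (p := fun i => ((i.1 : Nat.Primes) : ℕ))
        (c := c) (σ := fun i => Rat.castHom ℚ_[((i.1 : Nat.Primes) : ℕ)])
        (fun i j hij => Subtype.ext (Subtype.ext hij)) H h0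
        (fun i => by simpa using hw i.1 i.2)
        (X := fun i => X i.1) (Y := fun i => Y i.1) (W := fun i => W i.1)
        (fun i => hX i.1 i.2)
      obtain ⟨x, y, w, g1, g2⟩ := hd ε hε
      refine ⟨x, y, w, g1, fun p hp => ?_⟩
      simpa using g2 ⟨p, hp⟩
  · intro S m c' r P hm hS hr hP
    obtain ⟨c, w, h1, h2, h3, h4, h5⟩ := exi S (fun p hp => (hS p hp).1) hm
      (fun p hp => (hS p hp).2) hr hP
    refine ⟨c, w, h1, fun p hp => ?_, ?_, h4, h5⟩
    · have : Fact (p : ℕ).Prime := ⟨p.2⟩
      obtain ⟨ν, k1, k2⟩ := h2 p hp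
      obtain ⟨e1, e2, e3, e4⟩ := ex4_ok (hS p hp).1 k1
      have hsq : ∀ x y : ℤ, ((p : ℕ) : ℤ) ^ 2 ∣ F4 c x y - F4 (ex4 p ν) x y :=
        fun x y => cong_sq k2 x y
      refine ⟨ν, ν - 1, k1, e1, fun x y => ?_, fun x hx => ?_, fun h => ?_⟩
      · have e : value c x y - ν * (x - y) ^ 3 * (x - y + ((ν - 1 : ℤ) : ℤ)) =
            (F4 c x y - F4 (ex4 p ν) x y) +
            (F4 (ex4 p ν) x y - ν * (x - y) ^ 3 * (x - y + (ν - 1))) := by
          rw [value_eq]; push_cast; ring
        have hpp : ((p : ℕ) : ℤ) ∣ ((p : ℕ) : ℤ) ^ 2 := Dvd.intro_left _ (by ring)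
        have := dvd_add (hpp.trans (hsq x y)) (e2 x y)
        rw [← e] at this
        simpa using this
      · apply e3 x
        have := dvd_sub hx (hsq x x)
        rwa [value_eq, sub_sub_cancel] at this
      · apply e4
        have := dvd_sub h (k2 4 4)
        rwa [sub_sub_cancel] at this
    · have : ((w ^ 2 : ℤ) : ℚ) = ((value c (1 : ℤ) 0 : ℤ) : ℚ) := by
        rw [value_eq]
        have := map_F4 c (Int.castRingHom ℚ) 1 0
        simp only [eq_intCast, map_one, map_zero] at this
        push_cast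
        rw [h3]
        simpa using this.symm
      exact Int.cast_injective this

end Pool.Agent.Results.MP_ed3816_nt.DensityAtPrimes
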