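import Pool.Agent.Y720.WL.Ku2

/-!
# Weak approximation near the rational points of Kummer surfaces (helper720)

`K` is a number field, `q₁, …, q_r` are separable polynomials over `K` of degree `3` or `4`, and
`X_c` is the double cover `w² = c q₁(z₁) ⋯ q_r(z_r)`, for `c ∈ K`. For `r = 2` these are the Kummer
surfaces of the products of two curves of genus one (K3 surfaces), and for `r ≥ 3` they are singular
Calabi-Yau varieties.

We show that there are finite sets `F₁, …, F_r` of elements of `K` such that, for all `c` and for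
every finite set of real and `p`-adic places (of degree one, over different `p`, at least one of
them `p`-adic), the closure of `X_c(K)` in the product of the `X_c(K_v)` is a neighbourhood of each
rational point `(z, w)` with `w ≠ 0` and `z_j ∉ F_j` for all `j`. It is also a neighbourhood of each
of its points `T` with `w(T_v) ≠ 0` for which the differences `D_j(T_v)` have infinite order, for
all `j` and all the `p`-adic places `v`.

Idea of the proof. Through a rational point `P` there are `r` curves of genus one, quadratic twists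
of the curves `w² = q_j(t)`. The `x`-coordinates of the points of finite order of all the quadratic
twists of a curve are finitely many (their heights are bounded). So the difference `D_j(P)` of the
two points over `z` has infinite order unless `z_j` belongs to a finite set. A multiple of it is
close to the origin at all the places, and for the nearby points `P'` the multiples of the
same multiple of `D_j(P')` fill neighbourhoods of the origin with a size which does not depend on
`P'`, simultaneously at all the places.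
-/

set_option autoImplicit false

namespace Pool.Agent.Results.MP_ed3816_nt.KummerCovers

open MvPolynomial Pool.Agent.Y720.MZ

universe u v w

/-- The point `(z, w)` lies on the double cover `w² = f(z)`. -/
def OnCover {F : Type v} [Field F] {n : ℕ} (f : MvPolynomial (Fin n) F) (P : (Fin n → F) × F) :
    Prop :=
  P.2 ^ 2 = eval P.1 f

/-- The image of a point under an embedding of fields. -/
def image {K : Type v} {F : Type w} [Field K] [Field F] (φ : K →+* F) {n : ℕ}
    (P : (Fin n → K) × K) : (Fin n → F) × F :=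
  (fun j => φ (P.1 j), φ P.2)

/-- The polynomial `f(z + t e_a)` in `t`. -/
noncomputable def line {F : Type v} [Field F] {n : ℕ} (f : MvPolynomial (Fin n) F) (z : Fin n → F)
    (a : Fin n) : Polynomial F :=
  aeval (fun i => Polynomial.C (z i) +
    Polynomial.C (Pi.single (M := fun _ => F) a 1 i) * Polynomial.X) f

/-- The resolvent `y² = x³ + q₂ x² + (q₁ q₃ - 4 q₀ q₄) x + (q₁² q₄ + q₀ q₃² - 4 q₀ q₂ q₄)` of the
quartic polynomial with coefficients `q₀ = w², q₁, q₂, q₃, q₄`, the Jacobian of the curve
`w² = q₀ + q₁ t + q₂ t² + q₃ t³ + q₄ t⁴`. -/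
def resolvent {F : Type v} [Field F] (w : F) (q : ℕ → F) : WeierstrassCurve F :=
  ⟨0, q 2, 0, q 1 * q 3 - 4 * w ^ 2 * q 4,
    q 1 ^ 2 * q 4 + w ^ 2 * q 3 ^ 2 - 4 * w ^ 2 * q 2 * q 4⟩

/-- The difference of the points `(z, w)` and `(z, -w)` of the curve `w² = f(z + t e_a)`, the point
`x = q₁² / (4 w²) - q₂`, `y = (q₁ x + 2 w² q₃) / (2 w)` of the Jacobian, has infinite order. -/
def InfiniteOrder {F : Type v} [Field F] {n : ℕ} (f : MvPolynomial (Fin n) F) (a : Fin n)
    (P : (Fin n → F) × F) : Prop :=
  let q : ℕ → F := (line f P.1 a).coeff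
  let x := q 1 ^ 2 / (4 * P.2 ^ 2) - q 2
  let y := (q 1 * x + 2 * P.2 ^ 2 * q 3) / (2 * P.2)
  letI : DecidableEq F := Classical.decEq F
  ∀ h : (resolvent P.2 q).toAffine.Nonsingular x y, ∀ k : ℕ, k ≠ 0 →
    k • (.some x y h : (resolvent P.2 q).toAffine.Point) ≠ 0

/-- The closure of the `K`-points in the product of the `X(ℚ_[p i])` is a neighbourhood of `T`. -/
def Fills {K : Type u} [Field K] {n : ℕ} (f : MvPolynomial (Fin n) K) {ι : Type} {p : ι → ℕ}
    [∀ i, Fact (p i).Prime] (σ : ∀ i, K →+* ℚ_[p i]) (T : ∀ i, (Fin n → ℚ_[p i]) × ℚ_[p i]) :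
    Prop :=
  ∃ U ∈ nhds T, ∀ S ∈ U, (∀ i, OnCover (map (σ i) f) (S i)) →
    S ∈ closure {S | ∃ P, OnCover f P ∧ S = fun i => image (σ i) P}

/-- The closure of the `K`-points in the product of `X(ℝ)` and of the `X(ℚ_[p i])` is a
neighbourhood of `T`. -/
def FillsReal {K : Type u} [Field K] {n : ℕ} (f : MvPolynomial (Fin n) K) {ι : Type} {p : ι → ℕ}
    [∀ i, Fact (p i).Prime] (σ : ∀ i, K →+* ℚ_[p i]) (τ : K →+* ℝ)
    (T : ((Fin n → ℝ) × ℝ) × ∀ i, (Fin n → ℚ_[p i]) × ℚ_[p i]) : Prop :=
  ∃ U ∈ nhds T, ∀ S ∈ U, OnCover (map τ f) S.1 → (∀ i, OnCover (map (σ i) f) (S.2 i)) →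
    S ∈ closure {S | ∃ P, OnCover f P ∧ S = (image τ P, fun i => image (σ i) P)}

/-- The polynomial `c q₁(z₁) ⋯ q_r(z_r)`. -/
noncomputable def kummer {K : Type u} [Field K] {n : ℕ} (c : K) (q : Fin n → Polynomial K) :
    MvPolynomial (Fin n) K :=
  C c * ∏ j, Polynomial.aeval (X j) (q j)

section aux

variable {K : Type u} [Field K] {n : ℕ}

lemma dist_image {F : Type} [NormedField F] (φ : K →+* F) (P : (Fin n → K) × K)
    (T : (Fin n → F) × F) {η : ℝ} (hη : 0 < η) : dist T (image φ P) < η ↔
      (∀ j, ‖φ (P.1 j) - T.1 j‖ < η) ∧ ‖φ P.2 - T.2‖ < η := by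
  rw [dist_comm, Prod.dist_eq, max_lt_iff, dist_pi_lt_iff hη]
  simp only [dist_eq_norm, image]

lemma io_of {F : Type v} [Field F] [CharZero F] {g : MvPolynomial (Fin n) F} {a : Fin n}
    {P : (Fin n → F) × F} (hP : OnCover g P) (hT : Tq g (Pi.single a 1) P.1 ≠ 0)
    (h : InfiniteOrder g a P) : IOt (th g (Pi.single a 1) P.1 P.2) := by
  classical
  refine ⟨?_, h⟩
  rw [Tq_eq hP]
  exact hT

end aux

/-- **Weak approximation near the rational points of Kummer surfaces.** -/
theorem result :
    ∀ (K : Type u) [Field K] [NumberField K] (r : ℕ) (q : Fin r → Polynomial K),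
      -- the curves `w² = q_j(t)` are smooth of genus one
      (∀ j, (q j).Separable ∧ 3 ≤ (q j).natDegree ∧ (q j).natDegree ≤ 4) →
      -- then there are finitely many fibres
      ∃ F : Fin r → Set K, (∀ j, (F j).Finite) ∧
        -- such that for all the twists `w² = c q₁(z₁) ⋯ q_r(z_r)` and all finite sets of places
        ∀ (c : K) (ι : Type) [Finite ι] [Nonempty ι] (p : ι → ℕ) [∀ i, Fact (p i).Prime],
          Function.Injective p → ∀ σ : ∀ i, K →+* ℚ_[p i],
            -- the closure of the rational points is a neighbourhood of the rational points outside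
            -- of these fibres
            (∀ P : (Fin r → K) × K, OnCover (kummer c q) P → P.2 ≠ 0 → (∀ j, P.1 j ∉ F j) →
              Fills (kummer c q) σ (fun i => image (σ i) P) ∧
                ∀ τ : K →+* ℝ, FillsReal (kummer c q) σ τ (image τ P, fun i => image (σ i) P)) ∧
            -- and of the local points in the closure for which the differences have infinite
            -- order at the `p`-adic places
            (∀ T : ∀ i, (Fin r → ℚ_[p i]) × ℚ_[p i],
              T ∈ closure {S | ∃ P, OnCover (kummer c q) P ∧ S = fun i => image (σ i) P} →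
              (∀ i, OnCover (map (σ i) (kummer c q)) (T i) ∧ (T i).2 ≠ 0) →
              (∀ j i, InfiniteOrder (map (σ i) (kummer c q)) j (T i)) →
              Fills (kummer c q) σ T) ∧
            ∀ (τ : K →+* ℝ) (T : ((Fin r → ℝ) × ℝ) × ∀ i, (Fin r → ℚ_[p i]) × ℚ_[p i]),
              T ∈ closure {S | ∃ P, OnCover (kummer c q) P ∧
                S = (image τ P, fun i => image (σ i) P)} →
              OnCover (map τ (kummer c q)) T.1 → T.1.2 ≠ 0 →
              (∀ i, OnCover (map (σ i) (kummer c q)) (T.2 i) ∧ (T.2 i).2 ≠ 0) →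
              (∀ j i, InfiniteOrder (map (σ i) (kummer c q)) j (T.2 i)) →
              FillsReal (kummer c q) σ τ T := by
  intro K _ _ r q hq
  obtain ⟨F, hF, hio⟩ := kf_io hq
  refine ⟨F, hF, ?_⟩
  intro c ι _ _ p _ hinj σ
  have : Fintype ι := Fintype.ofFinite ι
  have hk : kummer c q = kf c q := rfl
  have hio' := hio c
  rw [← hk] at hio'
  generalize kummer c q = f at hk hio' ⊢
  have hd4 : ∀ j z, (rst f z (Pi.single j 1)).natDegree ≤ 4 := fun j z => by
    rw [hk]; exact kf_deg (hq j).2.2 z
  have hTq : ∀ {F : Type} [Field F] [CharZero F] (φ : K →+* F) (j : Fin r)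
      (P : (Fin r → F) × F), OnCover (map φ f) P → P.2 ≠ 0 →
      Tq (map φ f) (Pi.single j 1) P.1 ≠ 0 := by
    intro F _ _ φ j P hP hw
    rw [hk, kf_map] at hP ⊢
    have h1 : ((q j).map φ).Separable := (hq j).1.map
    have h2 : 3 ≤ ((q j).map φ).natDegree := by
      rw [Polynomial.natDegree_map]; exact (hq j).2.1
    have h3 : ((q j).map φ).natDegree ≤ 4 := by
      rw [Polynomial.natDegree_map]; exact (hq j).2.2
    exact kf_Tq (c := φ c) (q := fun j => (q j).map φ) (j := j) h1 h2 h3 hP hw
  -- the local statements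
  have H1 : ∀ T : ∀ i, (Fin r → ℚ_[p i]) × ℚ_[p i],
      T ∈ closure {S | ∃ P, OnCover f P ∧ S = fun i => image (σ i) P} →
      (∀ i, OnCover (map (σ i) f) (T i) ∧ (T i).2 ≠ 0) →
      (∀ j i, InfiniteOrder (map (σ i) f) j (T i)) → Fills f σ T := by
    rintro T hcl hT ha
    obtain ⟨ε, hε, hint⟩ := all_p hinj σ hd4 (x₀ := fun i => (T i).1) (y₀ := fun i => (T i).2)
      (fun i => (hT i).1) (fun i => (hT i).2) fun j i =>
        io_of (hT i).1 (hTq (σ i) j (T i) (hT i).1 (hT i).2) (ha j i)
    obtain ⟨_, ⟨P, hP, rfl⟩, h2⟩ := Metric.mem_closure_iff.1 hcl ε hε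
    rw [dist_pi_lt_iff hε] at h2
    refine ⟨Metric.ball T ε, Metric.ball_mem_nhds T hε, fun S hS hSX => ?_⟩
    rw [Metric.mem_ball, dist_pi_lt_iff hε] at hS
    rw [Metric.mem_closure_iff]
    intro η hη
    obtain ⟨z, w, k1, k2⟩ := hint P.1 P.2 hP (fun i => (dist_image (σ i) P (T i) hε).1 (h2 i))
      (fun i => (S i).1) (fun i => (S i).2) hSX (fun i => by
        have h3 := hS i
        rw [Prod.dist_eq, max_lt_iff, dist_pi_lt_iff hε] at h3
        simp only [dist_eq_norm] at h3
        exact h3) η hη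
    refine ⟨_, ⟨(z, w), k1, rfl⟩, ?_⟩
    rw [dist_pi_lt_iff hη]
    exact fun i => (dist_image (σ i) (z, w) (S i) hη).2 (k2 i)
  have H2 : ∀ (τ : K →+* ℝ) (T : ((Fin r → ℝ) × ℝ) × ∀ i, (Fin r → ℚ_[p i]) × ℚ_[p i]),
      T ∈ closure {S | ∃ P, OnCover f P ∧ S = (image τ P, fun i => image (σ i) P)} →
      OnCover (map τ f) T.1 → T.1.2 ≠ 0 →
      (∀ i, OnCover (map (σ i) f) (T.2 i) ∧ (T.2 i).2 ≠ 0) →
      (∀ j i, InfiniteOrder (map (σ i) f) j (T.2 i)) → FillsReal f σ τ T := by
    rintro τ T hcl hTr hTN hT ha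
    let x : ∀ v : Option ι, Fin r → Lv p v := fun v =>
      match v with
      | none => T.1.1
      | some i => (T.2 i).1
    let y : ∀ v : Option ι, Lv p v := fun v =>
      match v with
      | none => T.1.2
      | some i => (T.2 i).2
    obtain ⟨ε, hε, hint⟩ := all_r hinj σ τ hd4 (x₀ := x) (y₀ := y)
      (by
        rintro (_ | i)
        · exact hTr
        · exact (hT i).1)
      (by
        rintro (_ | i)
        · exact hTN
        · exact (hT i).2) (fun j => hTq τ j T.1 hTr hTN) fun j i =>
        io_of (hT i).1 (hTq (σ i) j (T.2 i) (hT i).1 (hT i).2) (ha j i)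
    obtain ⟨_, ⟨P, hP, rfl⟩, h2⟩ := Metric.mem_closure_iff.1 hcl ε hε
    rw [Prod.dist_eq, max_lt_iff, dist_pi_lt_iff hε] at h2
    refine ⟨Metric.ball T ε, Metric.ball_mem_nhds T hε, fun S hS hSr hSX => ?_⟩
    rw [Metric.mem_ball, Prod.dist_eq, max_lt_iff, dist_pi_lt_iff hε] at hS
    rw [Metric.mem_closure_iff]
    intro η hη
    let x' : ∀ v : Option ι, Fin r → Lv p v := fun v =>
      match v with
      | none => S.1.1
      | some i => (S.2 i).1
    let y' : ∀ v : Option ι, Lv p v := fun v =>
      match v with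
      | none => S.1.2
      | some i => (S.2 i).2
    obtain ⟨z, w, k1, k2⟩ := hint P.1 P.2 hP
      (by
        rintro (_ | i)
        · exact (dist_image τ P T.1 hε).1 h2.1
        · exact (dist_image (σ i) P (T.2 i) hε).1 (h2.2 i))
      x' y'
      (by
        rintro (_ | i)
        · exact hSr
        · exact hSX i)
      (by
        rintro (_ | i)
        · have h3 := hS.1
          rw [Prod.dist_eq, max_lt_iff, dist_pi_lt_iff hε] at h3
          simp only [dist_eq_norm] at h3
          exact h3
        · have h3 := hS.2 i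
          rw [Prod.dist_eq, max_lt_iff, dist_pi_lt_iff hε] at h3
          simp only [dist_eq_norm] at h3
          exact h3) η hη
    refine ⟨_, ⟨(z, w), k1, rfl⟩, ?_⟩
    rw [Prod.dist_eq, max_lt_iff, dist_pi_lt_iff hη]
    exact ⟨(dist_image τ (z, w) S.1 hη).2 (k2 none),
      fun i => (dist_image (σ i) (z, w) (S.2 i) hη).2 (k2 (some i))⟩
  refine ⟨?_, H1, H2⟩
  rintro P hP hN ha
  have e1 : ∀ {F : Type} [Field F] [CharZero F] (φ : K →+* F),
      OnCover (map φ f) (image φ P) ∧ (image φ P).2 ≠ 0 ∧
        ∀ j, InfiniteOrder (map φ f) j (image φ P) := by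
    intro F _ _ φ
    have k1 : ∀ g : MvPolynomial (Fin r) K, eval (image φ P).1 (map φ g) = φ (eval P.1 g) := by
      intro g
      rw [eval_map, image]
      exact (eval₂_comp_left φ (RingHom.id K) P.1 g).symm ▸ rfl
    refine ⟨?_, (map_ne_zero φ).2 hN, fun j => ?_⟩
    · unfold OnCover
      rw [k1, ← (show P.2 ^ 2 = _ from hP), map_pow]
      rfl
    · have k4 := io_map φ (hio' P.1 P.2 hP hN j (ha j))
      rw [← th_map] at k4
      have k5 : (fun i => φ ((Pi.single j 1 : Fin r → K) i)) = Pi.single j 1 := by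
        funext b
        by_cases h : b = j
        · subst h; simp
        · rw [Pi.single_eq_of_ne h, Pi.single_eq_of_ne h, map_zero]
      rw [k5] at k4
      exact k4.2
  refine ⟨H1 _ (subset_closure ⟨P, hP, rfl⟩) (fun i => ⟨(e1 (σ i)).1, (e1 (σ i)).2.1⟩)
    (fun j i => (e1 (σ i)).2.2 j), fun τ => ?_⟩
  exact H2 τ _ (subset_closure ⟨P, hP, rfl⟩) (e1 τ).1 (e1 τ).2.1
    (fun i => ⟨(e1 (σ i)).1, (e1 (σ i)).2.1⟩) (fun j i => (e1 (σ i)).2.2 j)

end Pool.Agent.Results.MP_ed3816_nt.KummerCovers
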