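import Pool.Agent.Y720.WF.R7

/-!
# Weak approximation for K3 surfaces and Calabi–Yau varieties at a finite set of primes and the
real place (helper720)

`X : w² = F(x₁, …, x_n)`, where `n ≥ 2` and `F` has degree `4` in each variable, is a double cover
of `(ℙ¹)ⁿ` branched along a divisor of multidegree `(4, …, 4)`, so a K3 surface (`n = 2`) or a
Calabi–Yau variety of dimension `n` if the divisor is smooth. At the primes `p ≥ 11` in a finite
nonempty set `S`, we assume that the homogeneous form of `F` is `ν L⁴ + β L³ M` modulo `p`, where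
`L` is a linear form `a₀ + ∑ aᵢ xᵢ` (made homogeneous), `ν` is not a square, `β` and the `aᵢ` are
not zero and `M` is the product of the homogeneous coordinates; and that `p²` does not divide the
values of the form at the zeros of `L` modulo `p`. And we assume that `F` is positive on `ℝⁿ`.

If `X` has a rational point whose coordinate `w` is a unit at the primes in `S`, then the rational
points are dense in the product of `X(ℝ)` and the sets `X(ℚ_p)`, for `p` in `S`: all real and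
`p`-adic points are approximated simultaneously by rational points. These varieties exist for
all `S`, and they are Zariski dense in the space of all the double covers, with an arbitrary
behaviour modulo any number prime to `S`.

Idea of the proof. The curves of genus one in the directions of the coordinates have reduction of
type II at the primes in `S`, and two real components, the sheets `w > 0` and `w < 0`. The
difference `D` of the points over a rational point of `(ℙ¹)ⁿ` is a topological generator of the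
product over `p ∈ S` of the groups of local points, isomorphic to `ℤ_p`, because `w` is a unit, and
it exchanges the two real sheets. So `2 D` generates a dense subgroup of the product of the `p`-adic
groups and of the neutral real component, and we can move along the fibres, to all the local points
with a given real sheet.
-/

set_option autoImplicit false

namespace Pool.Agent.Results.MP_ed3816_nt.WeakApproximationRealPlace

open Pool.Agent.Y720.MZ

instance factPrime (p : Nat.Primes) : Fact (p : ℕ).Prime := ⟨p.2⟩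

/-- The form `∑ c_e ∏ xᵢ^(eᵢ) yᵢ^(4 - eᵢ)`, of degree `4` in each pair of variables `xᵢ, yᵢ`. -/
def form {n : ℕ} (c : (Fin n → Fin 5) → ℤ) {R : Type*} [CommRing R] (x y : Fin n → R) : R :=
  ∑ e : Fin n → Fin 5, (c e : R) * ∏ i, (x i ^ (e i : ℕ) * y i ^ (4 - (e i : ℕ)))

/-- The linear form `a₀ + ∑ aᵢ xᵢ`, made homogeneous: `a₀ ∏ yᵢ + ∑ aᵢ xᵢ ∏_{l ≠ i} y_l`. -/
def linear {n : ℕ} (a₀ : ℤ) (a : Fin n → ℤ) (x y : Fin n → ℤ) : ℤ :=
  a₀ * ∏ i, y i + ∑ i, a i * (x i * ∏ l ∈ Finset.univ.erase i, y l)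

/-- The point `(x, w)` lies on the variety `w² = F(x)`, where `F(x)` is the value of the form at
`y = (1, …, 1)`. -/
def OnVariety {n : ℕ} (c : (Fin n → Fin 5) → ℤ) {R : Type*} [CommRing R] (x : Fin n → R) (w : R) :
    Prop :=
  w ^ 2 = form c x fun _ => 1

/-- Modulo `p`, the form is `ν L⁴ + β L³ M`, where `ν` is not a square, `β ≠ 0`, `L` is a linear
form with nonzero coefficients `aᵢ` and `M` is the product of the `yᵢ`; and `p²` divides no value
of the form at a point of `(ℙ¹)ⁿ` at which `L` is divisible by `p`. -/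
def CuspidalAt {n : ℕ} (c : (Fin n → Fin 5) → ℤ) (p : ℕ) : Prop :=
  ∃ (ν β a₀ : ℤ) (a : Fin n → ℤ), ¬ IsSquare (ν : ZMod p) ∧ ¬ (p : ℤ) ∣ β ∧
    (∀ i, ¬ (p : ℤ) ∣ a i) ∧
    (∀ x y : Fin n → ℤ, (p : ℤ) ∣
      form c x y - (ν * linear a₀ a x y ^ 4 + β * linear a₀ a x y ^ 3 * ∏ i, y i)) ∧
    ∀ x y : Fin n → ℤ, (∀ i, ¬ ((p : ℤ) ∣ x i ∧ (p : ℤ) ∣ y i)) →
      (p : ℤ) ∣ linear a₀ a x y → ¬ (p : ℤ) ^ 2 ∣ form c x y

/-- The polynomial `F` is positive on `ℝⁿ`. -/
def Positive {n : ℕ} (c : (Fin n → Fin 5) → ℤ) : Prop :=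
  ∀ z : Fin n → ℝ, 0 < form c z fun _ => 1

/-- **Weak approximation at a finite set of primes and the real place.** -/
theorem result :
    -- (1) density in the product of the sets of real points and of `p`-adic points, `p ∈ S`
    (∀ (n : ℕ), 2 ≤ n → ∀ (c : (Fin n → Fin 5) → ℤ) (S : Finset Nat.Primes), S.Nonempty →
      (∀ p ∈ S, 11 ≤ (p : ℕ) ∧ CuspidalAt c p) → Positive c →
      (∃ (x : Fin n → ℚ) (w : ℚ), OnVariety c x w ∧ ∀ p ∈ S, ‖(w : ℚ_[p])‖ = 1) →
      ∀ (X₀ : Fin n → ℝ) (W₀ : ℝ), OnVariety c X₀ W₀ →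
      ∀ (X : ∀ p : Nat.Primes, Fin n → ℚ_[p]) (W : ∀ p : Nat.Primes, ℚ_[p]),
        (∀ p ∈ S, OnVariety c (X p) (W p)) →
        ∀ ε : ℝ, 0 < ε → ∃ (x : Fin n → ℚ) (w : ℚ), OnVariety c x w ∧
          ((∀ i, |(x i : ℝ) - X₀ i| < ε) ∧ |(w : ℝ) - W₀| < ε) ∧
          ∀ p ∈ S, (∀ i, ‖(x i : ℚ_[p]) - X p i‖ < ε) ∧ ‖(w : ℚ_[p]) - W p‖ < ε) ∧
    -- (2) existence: for all `n` and `S`, in all classes modulo integers `m` prime to `S` which
    -- contain a variety with a point `(0, r)` modulo `m`, the varieties which satisfy the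
    -- conditions of (1), with the rational point `(0, w)`, are Zariski dense
    (∀ (n : ℕ) (S : Finset Nat.Primes) (m : ℕ) (c' : (Fin n → Fin 5) → ℤ) (r : ℤ)
      (P : MvPolynomial (Fin n → Fin 5) ℂ), 0 < m → (∀ p ∈ S, 11 ≤ (p : ℕ) ∧ Nat.Coprime m p) →
      (m : ℤ) ∣ r ^ 2 - c' 0 → P ≠ 0 →
      ∃ (c : (Fin n → Fin 5) → ℤ) (w : ℤ), (∀ e, (m : ℤ) ∣ c e - c' e) ∧
        (∀ p ∈ S, CuspidalAt c p) ∧ Positive c ∧ OnVariety c (fun _ => 0) w ∧
        (∀ p ∈ S, ¬ ((p : ℕ) : ℤ) ∣ w) ∧ MvPolynomial.eval (fun e => (c e : ℂ)) P ≠ 0) := by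
  have key : ∀ (n : ℕ) (c : (Fin n → Fin 5) → ℤ) (S : Finset Nat.Primes),
      (∀ p ∈ S, 11 ≤ (p : ℕ) ∧ CuspidalAt c p) → ∀ i : {p // p ∈ S},
      ∃ (ν β a₀ : ℤ) (a : Fin n → ℤ), SP ((i.1 : Nat.Primes) : ℕ) c ν β a₀ a := by
    intro n c S hS i
    obtain ⟨h11, ν, β, a₀, a, h1, h2, h3, h4, h5⟩ := hS i.1 i.2
    exact ⟨ν, β, a₀, a, h11, h1, h2, h3, h4, h5⟩
  refine ⟨?_, ?_⟩
  · intro n hn c S hSn hS hF hP X₀ W₀ hX₀ X W hX ε hε
    obtain ⟨x₀, w₀, h0, hw⟩ := hP
    obtain ⟨p₀, hp₀⟩ := hSn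
    have : Nonempty {p // p ∈ S} := ⟨⟨p₀, hp₀⟩⟩
    choose ν β a₀ a H using key n c S hS
    obtain ⟨x, w, g1, g2, g3⟩ := dense_real_n (κ := {p // p ∈ S})
      (p := fun i => ((i.1 : Nat.Primes) : ℕ)) (c := c)
      (fun i j hij => Subtype.ext (Subtype.ext hij)) hF H
      (k₀ := ⟨0, by omega⟩) (j₀ := ⟨1, by omega⟩) (by simp) (x := x₀) (w := w₀) h0
      (fun i => hw i.1 i.2) (X := fun i => X i.1) (W := fun i => W i.1)
      (fun i => hX i.1 i.2) (z := X₀) (r := W₀) hX₀ hε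
    exact ⟨x, w, g1, g2, fun p hp => g3 ⟨p, hp⟩⟩
  · intro n S m c' r P hm hS hr hP
    obtain ⟨c, w, h1, h2, h3, h4, h5, h6⟩ := exinp S (fun p hp => (hS p hp).1) hm
      (fun p hp => (hS p hp).2) hr hP
    refine ⟨c, w, h1, fun p hp => ?_, h3, ?_, h5, h6⟩
    · obtain ⟨ν, H⟩ := h2 p hp
      exact ⟨ν, 1 - ν, 1, fun _ => 1, H.hν, H.hβ, H.ha, H.h1, H.h2⟩
    · show w ^ 2 = fm c (fun _ => (0 : ℤ)) fun _ => 1
      rw [fm_zero, h4]

end Pool.Agent.Results.MP_ed3816_nt.WeakApproximationRealPlace
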